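import Pool.Agent.Sturm69.Seq

/-!
# MP_434a90_mp: almost sure frequency independence of the dimension of the Sturmian spectrum

All definitions of the statement are in this file.
-/

set_option autoImplicit false

open MeasureTheory

namespace Pool.Agent.Results.MP_434a90_mp.AlmostSureDimension

/-- The sequence `u` is square summable, that is, it belongs to `ℓ²(ℤ)`. -/
def SquareSummable (u : ℤ → ℂ) : Prop := Summable fun n : ℤ => ‖u n‖ ^ 2

/-- The Sturmian potential at site `n`: it is `1` if `n α + θ mod 1` lies in `[1 - α, 1)` and `0`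
otherwise. -/
noncomputable def potential (α θ : ℝ) (n : ℤ) : ℝ :=
  if 1 - α ≤ Int.fract ((n : ℝ) * α + θ) then 1 else 0

/-- The Sturmian Hamiltonian `H` with coupling `lam`, frequency `α` and phase `θ`:
`(H u) n = u (n + 1) + u (n - 1) + lam * potential α θ n * u n`. -/
noncomputable def hamiltonian (lam α θ : ℝ) (u : ℤ → ℂ) (n : ℤ) : ℂ :=
  u (n + 1) + u (n - 1) + ((lam * potential α θ n : ℝ) : ℂ) * u n

/-- The complex number `z` is in the resolvent set of `H` on `ℓ²(ℤ)`: for every square summable `f`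
there is exactly one square summable `u` with `(H - z) u = f`. -/
def InResolventSet (lam α θ : ℝ) (z : ℂ) : Prop :=
  ∀ f : ℤ → ℂ, SquareSummable f →
    ∃! u : ℤ → ℂ, SquareSummable u ∧ ∀ n : ℤ, hamiltonian lam α θ u n - z * u n = f n

/-- The real set `S` is the spectrum of `H` on `ℓ²(ℤ)`: a complex number is not in the resolvent set
if and only if it is a point of `S`. -/
def IsSpectrum (lam α θ : ℝ) (S : Set ℝ) : Prop :=
  ∀ z : ℂ, ¬ InResolventSet lam α θ z ↔ ∃ E ∈ S, z = (E : ℂ)

/-- **Theorem.** For every real coupling `lam` there is a number `d` in `[0, 1]` such that for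
Lebesgue almost every frequency `α` in `(0, 1)` the Sturmian Hamiltonians of frequency `α` have, at
every phase, the same spectrum, and this spectrum has Hausdorff dimension `d`. -/
theorem result : ∀ lam : ℝ, ∃ d : ℝ, 0 ≤ d ∧ d ≤ 1 ∧
    ∀ᵐ α ∂(volume.restrict (Set.Ioo (0 : ℝ) 1)),
      ∃ S : Set ℝ, (∀ θ : ℝ, IsSpectrum lam α θ S) ∧ dimH S = ENNReal.ofReal d := by
  intro lam
  obtain ⟨d, hd0, hd1, hd⟩ := Pool.Agent.Sturm69.ae_real lam
  refine ⟨d, hd0, hd1, ?_⟩
  filter_upwards [hd] with α hα
  exact ⟨Pool.Agent.Sturm69.SpR lam α 0,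
    fun θ z => Pool.Agent.Sturm69.spec_facts lam hα.1 θ z, hα.2 0⟩

end Pool.Agent.Results.MP_434a90_mp.AlmostSureDimension
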