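import Pool.Agent.Sturm69.Seq
import Pool.Agent.Sturm69.TailLib

/-!
# MP_434a90_mp: the dimension of the Sturmian spectrum depends only on the tail of the expansion

All definitions of the statement are in this file.
-/

set_option autoImplicit false

namespace Pool.Agent.Results.MP_434a90_mp.TailDimension

/-- The sequence `u` is square summable, that is, it belongs to `ℓ²(ℤ)`. -/
def SquareSummable (u : ℤ → ℂ) : Prop := Summable fun n : ℤ => ‖u n‖ ^ 2

/-- The Sturmian potential at site `n`: it is `1` if `n α + θ mod 1` lies in `[1 - α, 1)` and `0`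
otherwise. -/
noncomputable def potential (α θ : ℝ) (n : ℤ) : ℝ :=
  if 1 - α ≤ Int.fract ((n : ℝ) * α + θ) then 1 else 0

/-- The Sturmian Hamiltonian `H` with coupling `lam`, frequency `α` and phase `θ`:
`(H u) n = u (n + 1) + u (n - 1) + lam * potential α θ n * u n`. -/
noncomputable def hamiltonian (lam α θ : ℝ) (u : ℤ → ℂ) (n : ℤ) : ℂ :=
  u (n + 1) + u (n - 1) + ((lam * potential α θ n : ℝ) : ℂ) * u n

/-- The complex number `z` is in the resolvent set of `H` on `ℓ²(ℤ)`: for every square summable `f`
there is exactly one square summable `u` with `(H - z) u = f`. -/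
def InResolventSet (lam α θ : ℝ) (z : ℂ) : Prop :=
  ∀ f : ℤ → ℂ, SquareSummable f →
    ∃! u : ℤ → ℂ, SquareSummable u ∧ ∀ n : ℤ, hamiltonian lam α θ u n - z * u n = f n

/-- The real set `S` is the spectrum of `H` on `ℓ²(ℤ)`: a complex number is not in the resolvent set
if and only if it is a point of `S`. -/
def IsSpectrum (lam α θ : ℝ) (S : Set ℝ) : Prop :=
  ∀ z : ℂ, ¬ InResolventSet lam α θ z ↔ ∃ E ∈ S, z = (E : ℂ)

/-- The Gauss map. -/
noncomputable def gauss (x : ℝ) : ℝ := Int.fract x⁻¹

/-- The continued fraction digits: `digit α n` is the partial quotient `a_(n+1)` of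
`α = [a_1, a_2, ...]`. -/
noncomputable def digit (α : ℝ) (n : ℕ) : ℕ := ⌊(gauss^[n] α)⁻¹⌋₊

/-- There are arbitrarily large pairs of consecutive digits. -/
def LargePairs (α : ℝ) : Prop := ∀ m : ℕ, ∃ n : ℕ, m ≤ digit α n ∧ m ≤ digit α (n + 1)

/-- The two continued fraction expansions have a common tail. -/
def CommonTail (α β : ℝ) : Prop := ∃ s t : ℕ, ∀ j : ℕ, digit α (s + j) = digit β (t + j)

/-- **Theorem.** For every real coupling `lam` and all irrational `α, β` in `(0, 1)` whose continued
fraction expansions have a common tail which contains arbitrarily large pairs of consecutive digits,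
the spectra of the Sturmian Hamiltonians of frequencies `α` and `β` (at every phase) have the same
Hausdorff dimension. -/
theorem result : ∀ lam : ℝ, ∀ α ∈ Set.Ioo (0 : ℝ) 1, ∀ β ∈ Set.Ioo (0 : ℝ) 1,
    Irrational α → Irrational β → LargePairs α → CommonTail α β →
    ∃ S S' : Set ℝ, (∀ θ : ℝ, IsSpectrum lam α θ S) ∧ (∀ θ : ℝ, IsSpectrum lam β θ S') ∧
      dimH S = dimH S' := by
  intro lam α hα β hβ hαi hβi hl ht
  exact ⟨Pool.Agent.Sturm69.SpR lam α 0, Pool.Agent.Sturm69.SpR lam β 0,
    fun θ z => Pool.Agent.Sturm69.spec_facts lam hαi θ z,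
    fun θ z => Pool.Agent.Sturm69.spec_facts lam hβi θ z,
    Pool.Agent.Sturm69.tail_all lam hα hβ hαi hβi hl ht 0 0⟩

end Pool.Agent.Results.MP_434a90_mp.TailDimension
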